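import Mathlib
import Pool.Agent.D0H41.SG.Stm

/-!
# Project SL: `S_n`-fields of degree `n` with given signature and ARBITRARY given completions at a finite set of primes

Strengthening of project SG (helper41).  Final theorem: for `n ≥ n₀`, `n - r₁` even, `S` a finite set of primes and
for each `p ∈ S` ANY etale `ℚ_p`-algebra `A_p` of dimension `n` (commutative, reduced), there are for large `X` at least
`X ^ (1/2 + 4/(3n) - 16 (log n)^2/n^2)` fields `L` of degree `n` with group `S_n`, `|disc| ≤ X`, exactly `r₁` real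
embeddings and `ℚ_p ⊗ L ≅ A_p` for all `p ∈ S`.

All of SG is used as it is, only `LOC` (complete splitting) is replaced.
Prove `theorem t_XXX : S_XXX` (with dependencies as hypotheses) in `Pool/Agent/D0H<your number>/SL/XXX.lean`.
Assembly: helper19.
-/

set_option autoImplicit false

open Polynomial TensorProduct

namespace Pool.Agent.D0H19.SL

open Pool.Agent.D0H41.SF Pool.Agent.D0H41.SG
open IntermediateField (adjoin)

/-- **1 NEAR** (Krasner for etale algebras, 40 min).

PROOF. `A = AdjoinRoot F`, `α` the root, `f'(α)` is a unit (`F` separable: `u F + v F' = 1`).  Make `A` a complete normed algebra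
over `ℚ_[p]`: `NormedCommRing.induced A (Matrix _ _ ℚ_[p])` with the injective `Algebra.leftMulMatrix` of the power basis
(`Matrix.linftyOpNormedRing`, `linftyOpNormedAlgebra`), `NormedAlgebra.induced`, `FiniteDimensional.complete`.
The map `Ψ(β, g) = (β ^ n + ∑_(i < n) g_i β ^ i, g)` of `A × (Fin n → ℚ_[p])` to itself has at `(α, F)` the strict derivative
`(γ, h) ↦ (F'(α) γ + ∑ h_i α ^ i, h)`, which is an equivalence, and `Ψ(α, F) = (0, F)`
(`HasStrictFDerivAt.map_nhds_eq_of_equiv`): so for all `G` near `F` there is `β` near `α` with `G(β) = 0`.  The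
determinant of the coordinates of `1, β, …, β ^ (n - 1)` in the basis `1, α, …, α ^ (n - 1)` is continuous and `1` for `β = α`,
so not zero near `α`; then `AdjoinRoot G → A`, `x ↦ β`, is injective, so bijective (`n` = dimension of both). -/
def S_NEAR : Prop := ∀ (p : ℕ) [Fact p.Prime] (n : ℕ) (F : ℚ_[p][X]), F.Monic → F.natDegree = n → F.Separable →
  ∃ ε : ℝ, 0 < ε ∧ ∀ G : ℚ_[p][X], G.Monic → G.natDegree = n → (∀ i, ‖G.coeff i - F.coeff i‖ ≤ ε) →
    Nonempty (AdjoinRoot G ≃ₐ[ℚ_[p]] AdjoinRoot F)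

/-- **2 TRZ** (25 min; linear substitution).

PROOF. `s = - f.coeff (n - 1)` (sum of the roots), `N = p ^ k`.  `F(Y) = (n N) ^ n f((Y / N + s) / n)` is monic, its roots are
`N (n x - s)`, so `F.coeff (n - 1) = 0`, and `‖F.coeff i‖ ≤ 1` for `k` large (`F.coeff i = N ^ (n - i) * (coefficient for k = 0)`).
`Y ↦ N (n x - s)` and `x ↦ (Y / N + s) / n` are inverse isomorphisms.  Separable: linear substitution (or: Bezout). -/
def S_TRZ : Prop := ∀ (p : ℕ) [Fact p.Prime] (n : ℕ) (f : ℚ_[p][X]), 2 ≤ n → f.Monic → f.natDegree = n →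
  f.Separable → ∃ F : ℚ_[p][X], F.Monic ∧ F.natDegree = n ∧ F.Separable ∧ (∀ i, ‖F.coeff i‖ ≤ 1) ∧
    F.coeff (n - 1) = 0 ∧ Nonempty (AdjoinRoot F ≃ₐ[ℚ_[p]] AdjoinRoot f)

/-- **3 LOC2** (from NEAR, TRZ; 20 min).  `F` from TRZ, `ε` from NEAR, `p ^ (-t) ≤ ε`, integers `b_i` with
`‖b_i - F.coeff i‖ ≤ p ^ (-t)` (integers are dense in `ℤ_[p]`: `PadicInt.denseRange_intCast` or `PadicInt.appr`). -/
def S_LOC2 : Prop := ∀ (p : ℕ) [Fact p.Prime] (n : ℕ) (f : ℚ_[p][X]), 3 ≤ n → f.Monic → f.natDegree = n →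
  f.Separable → ∃ (t : ℕ) (b : Fin (n - 1) → ℤ), ∀ a : Fin (n - 1) → ℤ, Cls (p ^ t) b a →
    Nonempty (AdjoinRoot ((pol n a).map (Int.castRingHom ℚ_[p])) ≃ₐ[ℚ_[p]] AdjoinRoot f)

/-- **4 TEN** (15 min): `ℚ_p ⊗ ℚ(θ) = ℚ_p[x] / (pol n a)` (`AdjoinRoot.tensorAlgEquiv`,
`IntermediateField.adjoinRootEquivAdjoin`, `minpoly_root` in `D0H41/SF/Basic.lean`: `minpoly ℚ θ = polQ n a`). -/
def S_TEN : Prop := ∀ (n : ℕ) (a : Fin (n - 1) → ℤ) (θ : Qb), 2 ≤ n → Irreducible (polQ n a) →
  aeval θ (pol n a) = 0 → ∀ (p : ℕ) [Fact p.Prime],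
    Nonempty (ℚ_[p] ⊗[ℚ] (adjoin ℚ {θ}) ≃ₐ[ℚ_[p]] AdjoinRoot ((pol n a).map (Int.castRingHom ℚ_[p])))

/-- **5 PRIM** (35 min): an etale algebra over an infinite field of characteristic zero is `k[x] / (f)`.

PROOF. `A` is a finite product of finite extensions `K_i` of `k` (`IsArtinianRing.equivPi`).  Take primitive elements `α_i`
(`Field.exists_primitive_element`), replace `α_i` by `α_i + c_i`, `c_i ∈ k`, such that the minimal polynomials `f_i` are different
(induction; only finitely many `c` are bad), so pairwise coprime; `f = ∏ f_i` is separable of degree `dim A`; the map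
`k[x] → A`, `x ↦ (α_i)_i`, has kernel `(f)` (all `f_i` divide), so `AdjoinRoot f → A` is injective, so bijective. -/
def S_PRIM : Prop := ∀ (k : Type) [Field k] [CharZero k] (A : Type) [CommRing A] [Algebra k A] [Module.Finite k A]
  [IsReduced A], ∃ f : k[X], f.Monic ∧ f.natDegree = Module.finrank k A ∧ f.Separable ∧
    Nonempty (AdjoinRoot f ≃ₐ[k] A)

end Pool.Agent.D0H19.SL
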