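import Pool.Agent.D0H41.SG.Stm
import Pool.Agent.D0H19.SL.Stm

/-!
# Project SL: assembly
-/

set_option autoImplicit false

open Polynomial TensorProduct

namespace Pool.Agent.D0H19.SL

open Pool.Agent.D0H41.SF Pool.Agent.D0H41.SG
open IntermediateField (adjoin)

/-- the local conditions -/
def Om (r₁ : ℕ) {ι : Type} (p : ι → ℕ) [∀ i, Fact (p i).Prime] (A : ι → Type) [∀ i, CommRing (A i)]
    [∀ i, Algebra ℚ_[p i] (A i)] (L : IntermediateField ℚ Qb) : Prop :=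
  Nat.card (L →+* ℝ) = r₁ ∧ ∀ i, Nonempty (ℚ_[p i] ⊗[ℚ] L ≃ₐ[ℚ_[p i]] A i)

/-- the class modulo a power of `p` for any etale algebra -/
theorem loc (hLOC2 : S_LOC2) (hTEN : S_TEN) (hPRIM : S_PRIM) {n : ℕ} (hn : 3 ≤ n) (p : ℕ) [Fact p.Prime] (A : Type)
    [CommRing A] [Algebra ℚ_[p] A] (hA : IsReduced A) (hd : Module.finrank ℚ_[p] A = n) :
    ∃ (t : ℕ) (b : Fin (n - 1) → ℤ), ∀ a : Fin (n - 1) → ℤ, Cls (p ^ t) b a → Irreducible (polQ n a) →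
      ∀ θ : Qb, aeval θ (pol n a) = 0 → Nonempty (ℚ_[p] ⊗[ℚ] (adjoin ℚ {θ}) ≃ₐ[ℚ_[p]] A) := by
  have : Module.Finite ℚ_[p] A := Module.finite_of_finrank_pos (by omega)
  obtain ⟨f, h1, h2, h3, ⟨e⟩⟩ := hPRIM ℚ_[p] A
  obtain ⟨t, b, h4⟩ := hLOC2 p n f hn h1 (h2.trans hd) h3
  refine ⟨t, b, fun a ha hirr θ hθ => ?_⟩
  obtain ⟨e1⟩ := hTEN n a θ (by omega) hirr hθ p
  obtain ⟨e2⟩ := h4 a ha
  exact ⟨(e1.trans e2).trans e⟩

theorem rich (hFAMG : S_FAMG) (hSN2 : S_SN2) (hREAL : S_REAL) (hEMB : S_EMB) (hCRT : S_CRT)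
    (hLOC2 : S_LOC2) (hTEN : S_TEN) (hPRIM : S_PRIM) (n k r₁ : ℕ) (h2k : 2 ≤ k) (hkn : 2 * k ≤ n) (hr : r₁ ≤ n)
    (he : Even (n - r₁)) {ι : Type} [Finite ι] (p : ι → ℕ) [hp : ∀ i, Fact (p i).Prime]
    (hinj : Function.Injective p) (A : ι → Type) [∀ i, CommRing (A i)] [∀ i, Algebra ℚ_[p i] (A i)]
    (hA : ∀ i, IsReduced (A i)) (hd : ∀ i, Module.finrank ℚ_[p i] (A i) = n) : Rich n k (Om r₁ p A) := by
  classical
  have := Fintype.ofFinite ι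
  have hn4 : 4 ≤ n := by omega
  set S : Finset ℕ := Finset.univ.image p with hS
  obtain ⟨q, hq1, hqp, a0, hsn⟩ := hSN2 n (S.sup id) hn4
  choose t b htb using fun i => loc hLOC2 hTEN hPRIM (by omega : 3 ≤ n) (p i) (A i) (hA i) (hd i)
  have hext : ∀ (β : Type) (u : ι → β) (v : β), ∃ w : ℕ → β, ∀ i, w (p i) = u i := by
    intro β u v
    refine ⟨fun x => if h : ∃ i, p i = x then u h.choose else v, fun i => ?_⟩
    have h : ∃ j, p j = p i := ⟨i, rfl⟩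
    simp only [dif_pos h]
    rw [hinj h.choose_spec]
  obtain ⟨t', ht'⟩ := hext ℕ t 0
  obtain ⟨b', hb'⟩ := hext (Fin (n - 1) → ℤ) b 0
  obtain ⟨Q, c, hQ1, hQ⟩ := hCRT n S t' b' q a0 (fun x hx => by
    rw [hS, Finset.mem_image] at hx
    obtain ⟨i, -, rfl⟩ := hx
    exact (hp i).out) hq1 (fun x hx hxq => by
    have h0 : x.Prime := by
      rw [hS, Finset.mem_image] at hx
      obtain ⟨i, -, rfl⟩ := hx
      exact (hp i).out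
    have h1 := hqp x h0 hxq
    have h2 : x ≤ S.sup id := Finset.le_sup (f := id) hx
    omega)
  obtain ⟨C, hC, hfam⟩ := hFAMG n k Q h2k hkn hQ1 c (fun a ha => (hsn a (hQ a ha).1).1)
  obtain ⟨K, hK, hreal⟩ := hREAL n r₁ hn4 hr he C hC
  obtain ⟨V₀, hV⟩ := hfam K hK
  refine ⟨K + C, by positivity, max V₀ 1, fun V hVV => ?_⟩
  obtain ⟨g, hg1, hg2⟩ := hreal V (le_trans (le_max_right _ _) hVV)
  obtain ⟨B, hB1, hB2⟩ := hV V (le_trans (le_max_left _ _) hVV) g hg1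
  refine ⟨B, hB1, fun a ha => ?_⟩
  obtain ⟨ha1, ha2, ha3⟩ := hB2 a ha
  have hirr : Irreducible (polQ n a) := (hsn a (hQ a ha1).1).1
  refine ⟨fun i => ?_, ha3, hirr, fun θ hθ => ⟨(hsn a (hQ a ha1).1).2 θ hθ, ?_, ?_⟩⟩
  · have h1 : ((a i : ℤ) : ℝ) = ((a i - g i : ℤ) : ℝ) + ((g i : ℤ) : ℝ) := by
      push_cast
      ring
    rw [h1]
    refine (abs_add_le _ _).trans ?_
    have h2 := ha2 i
    have h3 := hg1 i
    linarith
  · rw [hEMB n a θ ℝ (by omega) hirr hθ]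
    exact hg2 a ha2
  · intro i
    have h1 := (hQ a ha1).2 (p i) (by
      rw [hS, Finset.mem_image]
      exact ⟨i, Finset.mem_univ _, rfl⟩)
    rw [ht' i, hb' i] at h1
    exact htb i a h1 hirr θ hθ

/-- the final theorem -/
theorem final (hEXPG : S_EXPG) (hFAMG : S_FAMG) (hSN2 : S_SN2) (hREAL : S_REAL) (hEMB : S_EMB) (hCRT : S_CRT)
    (hLOC2 : S_LOC2) (hTEN : S_TEN) (hPRIM : S_PRIM) : ∃ n₀ : ℕ, ∀ n : ℕ, n₀ ≤ n → ∀ r₁ : ℕ, r₁ ≤ n → Even (n - r₁) →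
    ∀ (ι : Type) [Finite ι] (p : ι → ℕ) [∀ i, Fact (p i).Prime], Function.Injective p →
    ∀ (A : ι → Type) [∀ i, CommRing (A i)] [∀ i, Algebra ℚ_[p i] (A i)], (∀ i, IsReduced (A i)) →
    (∀ i, Module.finrank ℚ_[p i] (A i) = n) → ∃ X₀ : ℝ, ∀ X : ℝ, X₀ ≤ X →
      (SymO n (Om r₁ p A) X).Finite ∧
      X ^ ((1 : ℝ) / 2 + 4 / (3 * n) - 16 * (Real.log n) ^ 2 / (n : ℝ) ^ 2) ≤
        ((SymO n (Om r₁ p A) X).ncard : ℝ) := by
  obtain ⟨n₀, hn₀⟩ := hEXPG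
  refine ⟨max n₀ 4, fun n hn r₁ hr he ι _ p _ hinj A _ _ hA hd => ?_⟩
  have h1 : n₀ ≤ n := le_trans (le_max_left _ _) hn
  have h2 : 4 ≤ n := le_trans (le_max_right _ _) hn
  exact hn₀ n h1 _ (rich hFAMG hSN2 hREAL hEMB hCRT hLOC2 hTEN hPRIM n (n / 2) r₁ (by omega) (by omega) hr he p
    hinj A hA hd)

end Pool.Agent.D0H19.SL
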