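import Pool.Agent.D0H19.SL.Stm

/-!
# Project SL, module NEAR: Krasner's lemma for etale algebras
-/

set_option autoImplicit false

open Polynomial Filter Topology

namespace Pool.Agent.D0H19.SL

section newton

variable {k A : Type*} [NontriviallyNormedField k] [NormedCommRing A] [NormedAlgebra k A]

/-- the value at `β` of the monic polynomial with the coefficients `g` -/
noncomputable def ph (n : ℕ) (x : A × (Fin n → k)) : A :=
  x.1 ^ n + ∑ i : Fin n, x.2 i • x.1 ^ (i : ℕ)

/-- the value of the derivative -/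
noncomputable def dph (n : ℕ) (x : A × (Fin n → k)) : A :=
  n • x.1 ^ (n - 1) + ∑ i : Fin n, x.2 i • ((i : ℕ) • x.1 ^ ((i : ℕ) - 1))

theorem ph_deriv (n : ℕ) (x : A × (Fin n → k)) :
    HasStrictFDerivAt (ph n) ((dph n x) • (ContinuousLinearMap.fst k A (Fin n → k)) +
      ∑ i : Fin n, ((ContinuousLinearMap.proj i).comp (ContinuousLinearMap.snd k A (Fin n → k))).smulRight
        (x.1 ^ (i : ℕ))) x := by
  have h1 : HasStrictFDerivAt (fun x : A × (Fin n → k) => x.1 ^ n)
      ((n • x.1 ^ (n - 1)) • (ContinuousLinearMap.fst k A (Fin n → k))) x :=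
    (hasStrictFDerivAt_fst (𝕜 := k)).pow n
  have h2 : ∀ i : Fin n, HasStrictFDerivAt (fun x : A × (Fin n → k) => x.2 i • x.1 ^ (i : ℕ))
      (x.2 i • (((i : ℕ) • x.1 ^ ((i : ℕ) - 1)) • (ContinuousLinearMap.fst k A (Fin n → k))) +
        ((ContinuousLinearMap.proj i).comp (ContinuousLinearMap.snd k A (Fin n → k))).smulRight
        (x.1 ^ (i : ℕ))) x := by
    intro i
    have h3 : HasStrictFDerivAt (fun x : A × (Fin n → k) => x.2 i)
        ((ContinuousLinearMap.proj (R := k) (φ := fun _ : Fin n => k) i).comp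
          (ContinuousLinearMap.snd k A (Fin n → k))) x :=
      ((ContinuousLinearMap.proj (R := k) (φ := fun _ : Fin n => k) i).comp
          (ContinuousLinearMap.snd k A (Fin n → k))).hasStrictFDerivAt
    exact h3.fun_smul ((hasStrictFDerivAt_fst (𝕜 := k)).pow (i : ℕ))
  refine (h1.fun_add (HasStrictFDerivAt.fun_sum fun i _ => h2 i)).congr_fderiv ?_
  ext y
  · simp [dph, add_mul, Finset.sum_mul]
  · simp

/-- the derivative of `(β, g) ↦ (value, g)` as an equivalence -/
noncomputable def eqv (n : ℕ) (x : A × (Fin n → k)) (d : A) (hd : d * dph n x = 1) :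
    (A × (Fin n → k)) ≃L[k] (A × (Fin n → k)) :=
  ContinuousLinearEquiv.equivOfInverse
    (((dph n x) • (ContinuousLinearMap.fst k A (Fin n → k)) +
      ∑ i : Fin n, ((ContinuousLinearMap.proj i).comp (ContinuousLinearMap.snd k A (Fin n → k))).smulRight
        (x.1 ^ (i : ℕ))).prod (ContinuousLinearMap.snd k A (Fin n → k)))
    ((d • ((ContinuousLinearMap.fst k A (Fin n → k)) -
      ∑ i : Fin n, ((ContinuousLinearMap.proj i).comp (ContinuousLinearMap.snd k A (Fin n → k))).smulRight
        (x.1 ^ (i : ℕ)))).prod (ContinuousLinearMap.snd k A (Fin n → k)))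
    (fun y => by
      ext1
      · simp [← mul_assoc, hd]
      · simp)
    (fun y => by
      ext1
      · simp [← mul_assoc, mul_comm (dph n x) d, hd]
      · simp)

theorem newton [CompleteSpace k] [CompleteSpace A] (n : ℕ) (α : A) (g0 : Fin n → k) (h0 : ph n (α, g0) = 0)
    (hu : IsUnit (dph n (α, g0))) {U : Set A} (hU : U ∈ 𝓝 α) :
    ∀ᶠ g in 𝓝 g0, ∃ β ∈ U, ph n (β, g) = 0 := by
  obtain ⟨d, hd⟩ := hu.exists_left_inv
  have h1 : HasStrictFDerivAt (fun x : A × (Fin n → k) => (ph n x, x.2))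
      ((eqv n (α, g0) d hd : (A × (Fin n → k)) ≃L[k] (A × (Fin n → k))) :
        (A × (Fin n → k)) →L[k] (A × (Fin n → k))) (α, g0) :=
    ((ph_deriv n (α, g0)).prodMk (hasStrictFDerivAt_snd (𝕜 := k))).congr_fderiv rfl
  have h2 := h1.map_nhds_eq_of_equiv
  simp only [h0] at h2
  have h3 : (U ×ˢ (Set.univ : Set (Fin n → k))) ∈ 𝓝 (α, g0) := prod_mem_nhds hU univ_mem
  have h4 := image_mem_map (m := fun x : A × (Fin n → k) => (ph n x, x.2)) h3
  rw [h2] at h4
  have h5 : Tendsto (fun g : Fin n → k => ((0 : A), g)) (𝓝 g0) (𝓝 (0, g0)) :=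
    (Continuous.prodMk continuous_const continuous_id).tendsto _
  filter_upwards [h5 h4] with g hg
  obtain ⟨⟨β, g'⟩, ⟨hβ, -⟩, he⟩ := hg
  rw [Prod.mk.injEq] at he
  obtain ⟨e1, e2⟩ := he
  simp only at e2
  subst e2
  exact ⟨β, hβ, e1⟩

theorem near_abs [CompleteSpace k] [FiniteDimensional k A] (n : ℕ) (pb : Module.Basis (Fin n) k A) (α : A)
    (hpb : ∀ i, pb i = α ^ (i : ℕ)) (g0 : Fin n → k) (h0 : ph n (α, g0) = 0) (hu : IsUnit (dph n (α, g0))) :
    ∀ᶠ g in 𝓝 g0, ∃ β : A, ph n (β, g) = 0 ∧ pb.det (fun i : Fin n => β ^ (i : ℕ)) ≠ 0 := by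
  have : CompleteSpace A := FiniteDimensional.complete k A
  have hc : Continuous fun β : A => pb.det (fun i : Fin n => β ^ (i : ℕ)) := by
    simp only [Module.Basis.det_apply]
    refine Continuous.matrix_det ?_
    refine continuous_matrix fun i j => ?_
    have h1 : Continuous (pb.coord i) := LinearMap.continuous_of_finiteDimensional _
    exact h1.comp (continuous_pow (j : ℕ))
  have hU : {β : A | pb.det (fun i : Fin n => β ^ (i : ℕ)) ≠ 0} ∈ 𝓝 α := by
    refine (hc.isOpen_preimage _ isOpen_compl_singleton).mem_nhds ?_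
    have : (fun i : Fin n => α ^ (i : ℕ)) = pb := funext fun i => (hpb i).symm
    simp only [Set.mem_preimage, Set.mem_compl_iff, Set.mem_singleton_iff, this, pb.det_self]
    exact one_ne_zero
  filter_upwards [newton n α g0 h0 hu hU] with g hg
  obtain ⟨β, h1, h2⟩ := hg
  exact ⟨β, h2, h1⟩

end newton

section alg

variable {k : Type*} [Field k] {A : Type*} [CommRing A] [Algebra k A]

theorem aeval_eq {n : ℕ} {G : k[X]} (hG : G.Monic) (hn : G.natDegree = n) (β : A) :
    aeval β G = β ^ n + ∑ i : Fin n, G.coeff i • β ^ (i : ℕ) := by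
  subst hn
  conv_lhs => rw [hG.as_sum]
  rw [map_add, map_pow, aeval_X, map_sum, Finset.sum_range]
  congr 1
  refine Finset.sum_congr rfl fun i _ => ?_
  rw [map_mul, aeval_C, map_pow, aeval_X, Algebra.smul_def]

theorem aeval_deriv_eq {n : ℕ} {G : k[X]} (hG : G.Monic) (hn : G.natDegree = n) (β : A) :
    aeval β (derivative G) = n • β ^ (n - 1) + ∑ i : Fin n, G.coeff i • ((i : ℕ) • β ^ ((i : ℕ) - 1)) := by
  subst hn
  conv_lhs => rw [hG.as_sum]
  rw [derivative_add, map_add, derivative_X_pow, map_mul, aeval_C, map_pow, aeval_X, map_natCast, nsmul_eq_mul,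
    derivative_sum, map_sum, Finset.sum_range]
  congr 1
  refine Finset.sum_congr rfl fun i _ => ?_
  rw [derivative_C_mul_X_pow, map_mul, aeval_C, map_pow, aeval_X, Algebra.smul_def, map_mul, map_natCast, nsmul_eq_mul,
    mul_assoc]

/-- a root `β` of `G` whose powers are a basis gives an isomorphism -/
theorem iso_of {n : ℕ} {G : k[X]} (hG : G.Monic) (hn : G.natDegree = n) (pb : Module.Basis (Fin n) k A) (β : A)
    (h0 : aeval β G = 0) (hd : pb.det (fun i : Fin n => β ^ (i : ℕ)) ≠ 0) :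
    Nonempty (AdjoinRoot G ≃ₐ[k] A) := by
  have h0' : G.eval₂ (Algebra.ofId k A : k →+* A) β = 0 := h0
  set h : AdjoinRoot G →ₐ[k] A := AdjoinRoot.liftAlgHom G (Algebra.ofId k A) β h0' with hh
  have hroot : h (AdjoinRoot.root G) = β := AdjoinRoot.liftAlgHom_root _ _ _ _
  have hspan : Submodule.span k (Set.range fun i : Fin n => β ^ (i : ℕ)) = ⊤ :=
    ((Module.Basis.is_basis_iff_det pb).2 (isUnit_iff_ne_zero.2 hd)).2
  have hsurj : Function.Surjective h := by
    intro a
    have ha : a ∈ Submodule.span k (Set.range fun i : Fin n => β ^ (i : ℕ)) := by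
      rw [hspan]
      trivial
    have hle : Submodule.span k (Set.range fun i : Fin n => β ^ (i : ℕ)) ≤ LinearMap.range h.toLinearMap := by
      rw [Submodule.span_le]
      rintro _ ⟨i, rfl⟩
      exact ⟨AdjoinRoot.root G ^ (i : ℕ), by
        rw [AlgHom.toLinearMap_apply, map_pow, hroot]⟩
    obtain ⟨z, hz⟩ := hle ha
    exact ⟨z, hz⟩
  have : FiniteDimensional k A := Module.Basis.finiteDimensional_of_finite pb
  have : FiniteDimensional k (AdjoinRoot G) := (AdjoinRoot.powerBasis' hG).finite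
  have hfr : Module.finrank k (AdjoinRoot G) = Module.finrank k A := by
    rw [Module.finrank_eq_card_basis pb, Fintype.card_fin, (AdjoinRoot.powerBasis' hG).finrank,
      AdjoinRoot.powerBasis'_dim, hn]
  have hinj : Function.Injective h :=
    (LinearMap.injective_iff_surjective_of_finrank_eq_finrank (f := h.toLinearMap) hfr).2 hsurj
  exact ⟨AlgEquiv.ofBijective h ⟨hinj, hsurj⟩⟩

end alg

theorem t_NEAR : S_NEAR := by
  intro p _ n F hF hn hs
  subst hn
  set A := AdjoinRoot F with hA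
  set b : Module.Basis (Fin F.natDegree) ℚ_[p] A := (AdjoinRoot.powerBasis' hF).basis with hb
  have hbi : ∀ i, b i = AdjoinRoot.root F ^ (i : ℕ) := fun i =>
    (AdjoinRoot.powerBasis' hF).basis_eq_pow i
  have hroot : aeval (AdjoinRoot.root F) F = 0 := by
    rw [AdjoinRoot.aeval_eq, AdjoinRoot.mk_self]
  have hunit : IsUnit (aeval (AdjoinRoot.root F) (derivative F)) := by
    obtain ⟨u, v, huv⟩ := hs
    have h1 := congrArg (aeval (AdjoinRoot.root F)) huv
    rw [map_add, map_mul, map_mul, hroot, mul_zero, zero_add, map_one] at h1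
    exact IsUnit.of_mul_eq_one_right _ h1
  letI i1 : NormedRing (Matrix (Fin F.natDegree) (Fin F.natDegree) ℚ_[p]) := Matrix.linftyOpNormedRing
  letI i2 : NormedAlgebra ℚ_[p] (Matrix (Fin F.natDegree) (Fin F.natDegree) ℚ_[p]) := Matrix.linftyOpNormedAlgebra
  letI i3 : NormedCommRing A := NormedCommRing.induced A (Matrix (Fin F.natDegree) (Fin F.natDegree) ℚ_[p])
    (Algebra.leftMulMatrix b) (Algebra.leftMulMatrix_injective b)
  letI i4 : NormedAlgebra ℚ_[p] A := NormedAlgebra.induced ℚ_[p] A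
    (Matrix (Fin F.natDegree) (Fin F.natDegree) ℚ_[p]) (Algebra.leftMulMatrix b)
  have : FiniteDimensional ℚ_[p] A := (AdjoinRoot.powerBasis' hF).finite
  have key := near_abs (k := ℚ_[p]) (A := A) F.natDegree b (AdjoinRoot.root F) hbi (fun i => F.coeff i)
    (by
      have h1 := aeval_eq hF rfl (AdjoinRoot.root F)
      rw [hroot] at h1
      exact h1.symm)
    (by
      have h1 := aeval_deriv_eq hF rfl (AdjoinRoot.root F)
      rw [h1] at hunit
      exact hunit)
  obtain ⟨ε, hε, h⟩ := Metric.eventually_nhds_iff.1 key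
  refine ⟨ε / 2, half_pos hε, fun G hG hGn hclose => ?_⟩
  obtain ⟨β, h1, h2⟩ := h (y := fun i : Fin F.natDegree => G.coeff i) (by
    refine lt_of_le_of_lt ((dist_pi_le_iff (half_pos hε).le).2 fun i => ?_) (half_lt_self hε)
    rw [dist_eq_norm]
    exact hclose i)
  refine iso_of hG hGn b β ?_ h2
  rw [aeval_eq hG hGn β]
  exact h1

end Pool.Agent.D0H19.SL
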