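import Pool.Agent.D0H19.SL.Near
import Pool.Agent.D0H41.SF.Basic

/-!
# Project SL, module TEN: `ℚ_p ⊗ ℚ(θ) = ℚ_p[x] / (pol n a)`
-/

set_option autoImplicit false

open Polynomial TensorProduct

namespace Pool.Agent.D0H19.SL

open Pool.Agent.D0H41.SF Pool.Agent.D0H41.SG
open IntermediateField (adjoin)

theorem t_TEN : S_TEN := by
  intro n a θ hn hirr hθ p _
  have hint : IsIntegral ℚ θ := ⟨polQ n a, polQ_monic n hn a, by
    have := aeval_polQ n a θ
    rw [← aeval_def, this, hθ]⟩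
  have hmin : minpoly ℚ θ = polQ n a := minpoly_root n hn a θ hirr hθ
  have hdim : (IntermediateField.adjoin.powerBasis hint).dim = n := by
    rw [IntermediateField.adjoin.powerBasis_dim, hmin, polQ_natDegree n hn]
  set L := adjoin ℚ {θ} with hL
  set g : L := IntermediateField.AdjoinSimple.gen ℚ θ with hg
  have hgen : aeval g (pol n a) = 0 := by
    apply (algebraMap L Qb).injective
    rw [map_zero, ← hθ]
    have : algebraMap L Qb g = θ := IntermediateField.AdjoinSimple.algebraMap_gen ℚ θ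
    rw [← aeval_algebraMap_apply, this]
  set B : Module.Basis (Fin n) ℚ_[p] (ℚ_[p] ⊗[ℚ] L) :=
    (Algebra.TensorProduct.basis ℚ_[p] (IntermediateField.adjoin.powerBasis hint).basis).reindex
      (finCongr hdim) with hB
  set β : ℚ_[p] ⊗[ℚ] L := 1 ⊗ₜ g with hβ
  have hBi : (fun i : Fin n => β ^ (i : ℕ)) = B := by
    funext i
    rw [hB, Module.Basis.reindex_apply, Algebra.TensorProduct.basis_apply, PowerBasis.basis_eq_pow, hβ,
      Algebra.TensorProduct.tmul_pow, one_pow, IntermediateField.adjoin.powerBasis_gen]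
    rfl
  set G : ℚ_[p][X] := (pol n a).map (Int.castRingHom ℚ_[p]) with hG
  have hmon : (pol n a).Monic := pol_monic n hn a
  have hdeg : (pol n a).natDegree = n := pol_natDegree n hn a
  have h0 : aeval β G = 0 := by
    have h1 : aeval β G = aeval β (pol n a) := by
      rw [hG]
      exact aeval_map_algebraMap ℚ_[p] β (pol n a)
    rw [h1]
    have h3 := hom_eval₂ (pol n a) (algebraMap ℤ L)
      (Algebra.TensorProduct.includeRight : L →ₐ[ℚ] ℚ_[p] ⊗[ℚ] L).toRingHom g
    have h4 : (Algebra.TensorProduct.includeRight : L →ₐ[ℚ] ℚ_[p] ⊗[ℚ] L).toRingHom.comp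
        (algebraMap ℤ L) = algebraMap ℤ (ℚ_[p] ⊗[ℚ] L) := RingHom.ext_int _ _
    rw [h4] at h3
    have h2 : aeval ((Algebra.TensorProduct.includeRight : L →ₐ[ℚ] ℚ_[p] ⊗[ℚ] L) g) (pol n a) =
        (Algebra.TensorProduct.includeRight : L →ₐ[ℚ] ℚ_[p] ⊗[ℚ] L) (aeval g (pol n a)) := h3.symm
    rw [hgen, map_zero] at h2
    exact h2
  obtain ⟨e⟩ := iso_of (hmon.map _) (by rw [hmon.natDegree_map, hdeg]) B β h0
    (by rw [hBi, B.det_self]; exact one_ne_zero)
  exact ⟨e.symm⟩

end Pool.Agent.D0H19.SL
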